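import Mathlib

set_option autoImplicit false
set_option linter.style.haveILetI false
set_option linter.unusedSectionVars false

namespace Pool.Agent.H789R4

open Finset

variable {V : Type} [DecidableEq V]

/-- number of edges (with multiplicity) spanned by `X` -/
def ii (μ : Sym2 V → ℕ) (X : Finset V) : ℕ := ∑ e ∈ X.sym2, μ e

theorem ii_super (μ : Sym2 V → ℕ) (X Y : Finset V) :
    ii μ X + ii μ Y ≤ ii μ (X ∪ Y) + ii μ (X ∩ Y) := by
  unfold ii
  rw [← Finset.sum_union_inter]
  have h1 : X.sym2 ∩ Y.sym2 = (X ∩ Y).sym2 := by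
    ext e
    simp only [Finset.mem_inter, Finset.mem_sym2_iff]
    constructor
    · rintro ⟨h1, h2⟩ a ha
      exact ⟨h1 a ha, h2 a ha⟩
    · intro h
      exact ⟨fun a ha => (h a ha).1, fun a ha => (h a ha).2⟩
  rw [h1]
  apply Nat.add_le_add_right
  apply Finset.sum_le_sum_of_subset
  intro e he
  rw [Finset.mem_union, Finset.mem_sym2_iff, Finset.mem_sym2_iff] at he
  rw [Finset.mem_sym2_iff]
  intro a ha
  rw [Finset.mem_union]
  rcases he with he | he
  · exact Or.inl (he a ha)
  · exact Or.inr (he a ha)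

theorem ii_insert (μ : Sym2 V → ℕ) (X : Finset V) (v : V) (hv : v ∉ X) (hd : μ s(v, v) = 0) :
    ii μ (insert v X) = ii μ X + ∑ y ∈ X, μ s(v, y) := by
  unfold ii
  rw [Finset.sym2_insert, Finset.sum_union, Finset.sum_image, Finset.sum_insert hv, hd, zero_add,
    add_comm]
  · intro a _ b _ h
    exact Sym2.congr_right.1 h
  · rw [Finset.disjoint_left]
    intro e he he2
    rw [Finset.mem_image] at he
    obtain ⟨b, -, rfl⟩ := he
    rw [Finset.mem_sym2_iff] at he2
    exact hv (he2 v (Sym2.mem_mk_left v b))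

theorem handshake (μ : Sym2 V → ℕ) (hd : ∀ x, μ s(x, x) = 0) (X : Finset V) :
    ∑ x ∈ X, ∑ y ∈ X, μ s(x, y) = 2 * ii μ X := by
  induction X using Finset.induction_on with
  | empty => simp [ii]
  | insert v X hv ih =>
    rw [ii_insert μ X v hv (hd v), Finset.sum_insert hv, Finset.sum_insert hv, hd, zero_add]
    have h1 : ∀ x ∈ X, ∑ y ∈ insert v X, μ s(x, y) = μ s(v, x) + ∑ y ∈ X, μ s(x, y) := by
      intro x _
      rw [Finset.sum_insert hv, Sym2.eq_swap]
    rw [Finset.sum_congr rfl h1, Finset.sum_add_distrib, ih]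
    ring

variable (θ : V → V) (hθ : ∀ v, θ (θ v) = v)

include hθ

theorem map_map' (e : Sym2 V) : (e.map θ).map θ = e := by
  induction e using Sym2.ind with
  | _ u v => simp [hθ]

theorem ii_parity (μ : Sym2 V → ℕ) (hinv : ∀ e, μ (e.map θ) = μ e)
    (heven : ∀ e, e.map θ = e → Even (μ e)) (X : Finset V) (hX : ∀ x ∈ X, θ x ∈ X) :
    Even (ii μ X) := by
  rw [← ZMod.natCast_eq_zero_iff_even]
  unfold ii
  push_cast
  refine Finset.sum_involution (fun e _ => e.map θ) ?_ ?_ ?_ ?_
  · intro e _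
    rw [hinv]
    exact CharTwo.add_self_eq_zero _
  · intro e _ hne heq
    apply hne
    rw [ZMod.natCast_eq_zero_iff_even]
    exact heven e heq
  · intro e he
    rw [Finset.mem_sym2_iff] at he ⊢
    intro a ha
    rw [Sym2.mem_map] at ha
    obtain ⟨b, hb, rfl⟩ := ha
    exact hX b (he b hb)
  · intro e _
    exact map_map' θ hθ e

theorem ii_image (μ : Sym2 V → ℕ) (hinv : ∀ e, μ (e.map θ) = μ e) (X : Finset V) :
    ii μ (X.image θ) = ii μ X := by
  unfold ii
  refine Finset.sum_bij' (fun e _ => e.map θ) (fun e _ => e.map θ) ?_ ?_ ?_ ?_ ?_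
  · intro e he
    rw [Finset.mem_sym2_iff] at he ⊢
    intro a ha
    rw [Sym2.mem_map] at ha
    obtain ⟨b, hb, rfl⟩ := ha
    have := he b hb
    rw [Finset.mem_image] at this
    obtain ⟨c, hc, rfl⟩ := this
    rw [hθ]
    exact hc
  · intro e he
    rw [Finset.mem_sym2_iff] at he ⊢
    intro a ha
    rw [Sym2.mem_map] at ha
    obtain ⟨b, hb, rfl⟩ := ha
    exact Finset.mem_image_of_mem θ (he b hb)
  · intro e _
    exact map_map' θ hθ e
  · intro e _
    exact map_map' θ hθ e
  · intro e _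
    exact (hinv e).symm

end Pool.Agent.H789R4
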