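import Mathlib
import Pool.Agent.H789R4.Count

set_option autoImplicit false
set_option linter.style.haveILetI false
set_option linter.unusedSectionVars false

namespace Pool.Agent.H789R4

open Finset

/-- geometric lemma -/
theorem geo3 (ax bx a1 b1 a2 b2 : ℝ) (h12 : a1 ≠ a2 ∨ b1 ≠ b2) :
    ∃ s t, 0 < (s - ax) * (t - bx) ∧ ((s - a1) * (t - b1)) * ((s - a2) * (t - b2)) < 0 := by
  have key : ∀ a1 b1 a2 b2 : ℝ, a1 < a2 →
      ∃ s t, 0 < (s - ax) * (t - bx) ∧ ((s - a1) * (t - b1)) * ((s - a2) * (t - b2)) < 0 := by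
    intro a1 b1 a2 b2 h
    by_cases hx : ax < a2
    · obtain ⟨s, hs1, hs2⟩ := exists_between (max_lt h hx)
      have h1 : a1 < s := (le_max_left _ _).trans_lt hs1
      have h2 : ax < s := (le_max_right _ _).trans_lt hs1
      obtain ⟨t, ht⟩ := exists_gt (max bx (max b1 b2))
      have h3 : bx < t := (le_max_left _ _).trans_lt ht
      have h4 : b1 < t := ((le_max_left _ _).trans (le_max_right _ _)).trans_lt ht
      have h5 : b2 < t := ((le_max_right _ _).trans (le_max_right _ _)).trans_lt ht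
      refine ⟨s, t, mul_pos (by linarith) (by linarith), ?_⟩
      exact mul_neg_of_pos_of_neg (mul_pos (by linarith) (by linarith))
        (mul_neg_of_neg_of_pos (by linarith) (by linarith))
    · rw [not_lt] at hx
      obtain ⟨s, hs1, hs2⟩ := exists_between h
      obtain ⟨t, ht⟩ := exists_lt (min bx (min b1 b2))
      have h3 : t < bx := ht.trans_le (min_le_left _ _)
      have h4 : t < b1 := ht.trans_le ((min_le_right _ _).trans (min_le_left _ _))
      have h5 : t < b2 := ht.trans_le ((min_le_right _ _).trans (min_le_right _ _))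
      refine ⟨s, t, mul_pos_of_neg_of_neg (by linarith) (by linarith), ?_⟩
      exact mul_neg_of_neg_of_pos (mul_neg_of_pos_of_neg (by linarith) (by linarith))
        (mul_pos_of_neg_of_neg (by linarith) (by linarith))
  have key2 : ∀ a1 b1 b2 : ℝ, b1 < b2 →
      ∃ s t, 0 < (s - ax) * (t - bx) ∧ ((s - a1) * (t - b1)) * ((s - a1) * (t - b2)) < 0 := by
    intro a1 b1 b2 h
    obtain ⟨t, ⟨ht1, ht2⟩, htx⟩ : ∃ t, (b1 < t ∧ t < b2) ∧ t ≠ bx := by
      obtain ⟨t, ht1, ht2⟩ := exists_between h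
      by_cases htx : t = bx
      · obtain ⟨t', ht1', ht2'⟩ := exists_between ht2
        exact ⟨t', ⟨ht1.trans ht1', ht2'⟩, by rw [← htx]; exact ht1'.ne'⟩
      · exact ⟨t, ⟨ht1, ht2⟩, htx⟩
    rcases lt_or_gt_of_ne htx with hlt | hgt
    · obtain ⟨s, hs⟩ := exists_lt (min ax a1)
      have h3 : s < ax := hs.trans_le (min_le_left _ _)
      have h4 : s < a1 := hs.trans_le (min_le_right _ _)
      refine ⟨s, t, mul_pos_of_neg_of_neg (by linarith) (by linarith), ?_⟩
      exact mul_neg_of_neg_of_pos (mul_neg_of_neg_of_pos (by linarith) (by linarith))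
        (mul_pos_of_neg_of_neg (by linarith) (by linarith))
    · obtain ⟨s, hs⟩ := exists_gt (max ax a1)
      have h3 : ax < s := (le_max_left _ _).trans_lt hs
      have h4 : a1 < s := (le_max_right _ _).trans_lt hs
      refine ⟨s, t, mul_pos (by linarith) (by linarith), ?_⟩
      exact mul_neg_of_pos_of_neg (mul_pos (by linarith) (by linarith))
        (mul_neg_of_pos_of_neg (by linarith) (by linarith))
  by_cases ha : a1 = a2
  · have hb : b1 ≠ b2 := by
      rcases h12 with h | h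
      · exact absurd ha h
      · exact h
    subst ha
    rcases lt_or_gt_of_ne hb with hlt | hgt
    · exact key2 a1 b1 b2 hlt
    · obtain ⟨s, t, h1, h2⟩ := key2 a1 b2 b1 hgt
      exact ⟨s, t, h1, by rw [mul_comm]; exact h2⟩
  · rcases lt_or_gt_of_ne ha with hlt | hgt
    · exact key a1 b1 a2 b2 hlt
    · obtain ⟨s, t, h1, h2⟩ := key a2 b2 a1 b1 hgt
      exact ⟨s, t, h1, by rw [mul_comm]; exact h2⟩

theorem geo3neg (ax bx a1 b1 a2 b2 : ℝ) (h12 : a1 ≠ a2 ∨ b1 ≠ b2) :
    ∃ s t, (s - ax) * (t - bx) < 0 ∧ ((s - a1) * (t - b1)) * ((s - a2) * (t - b2)) < 0 := by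
  obtain ⟨s, t, h1, h2⟩ := geo3 ax (-bx) a1 (-b1) a2 (-b2) (by
    rcases h12 with h | h
    · exact Or.inl h
    · exact Or.inr (fun h' => h (neg_injective h')))
  refine ⟨s, -t, by nlinarith, by nlinarith⟩

theorem generic_choice (U : Set (ℝ × ℝ)) (hU : IsOpen U) (hne : U.Nonempty) (A B : Set ℝ)
    (hA : A.Finite) (hB : B.Finite) : ∃ s t, (s, t) ∈ U ∧ s ∉ A ∧ t ∉ B := by
  obtain ⟨⟨s0, t0⟩, h0⟩ := hne
  rw [Metric.isOpen_iff] at hU
  obtain ⟨r, hr, hball⟩ := hU _ h0
  have hinf : ∀ x : ℝ, (Set.Ioo x (x + r)).Infinite := fun x => Set.Ioo_infinite (by linarith)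
  obtain ⟨s, hs, hsA⟩ := (hinf s0).exists_notMem_finite hA
  obtain ⟨t, ht, htB⟩ := (hinf t0).exists_notMem_finite hB
  refine ⟨s, t, hball ?_, hsA, htB⟩
  rw [Metric.mem_ball, Prod.dist_eq, max_lt_iff, Real.dist_eq, Real.dist_eq]
  constructor
  · rw [abs_of_pos (by simp only; linarith [hs.1])]
    simp only; linarith [hs.2]
  · rw [abs_of_pos (by simp only; linarith [ht.1])]
    simp only; linarith [ht.2]

variable {V : Type} [DecidableEq V] (θ : V → V)

structure Gen (W : Finset V) (a b : V → ℝ) : Prop where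
  ha : ∀ x, a (θ x) = a x
  hb : ∀ x, b (θ x) = - b x
  ga : ∀ x ∈ W, ∀ y ∈ W, a x = a y → y = x ∨ y = θ x
  gb : ∀ x ∈ W, ∀ y ∈ W, b x = b y → y = x ∨ (θ x = x ∧ θ y = y)

theorem extend (hθ : ∀ v, θ (θ v) = v) (W : Finset V) (hW : ∀ x ∈ W, θ x ∈ W) (a b : V → ℝ)
    (hG : Gen θ W a b) (v : V) (hv : v ∉ W) (hvθ : θ v ≠ v)
    (U : Set (ℝ × ℝ)) (hU : IsOpen U) (hne : U.Nonempty) :
    ∃ a' b' : V → ℝ, Gen θ (insert v (insert (θ v) W)) a' b' ∧
      (∀ x ∈ W, a' x = a x ∧ b' x = b x) ∧ (a' v, b' v) ∈ U := by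
  obtain ⟨s, t, hst, hs, ht⟩ := generic_choice U hU hne (a '' (W : Set V))
    (insert 0 (b '' (W : Set V))) (W.finite_toSet.image a) ((W.finite_toSet.image b).insert 0)
  have hθv : θ v ∉ W := fun h => hv (by rw [← hθ v]; exact hW _ h)
  have ht0 : t ≠ 0 := fun h => ht (by rw [h]; exact Set.mem_insert _ _)
  have htW : ∀ x ∈ W, b x ≠ t := fun x hx h =>
    ht (Set.mem_insert_of_mem _ ⟨x, hx, h⟩)
  have htW' : ∀ x ∈ W, b x ≠ -t := fun x hx h =>
    htW (θ x) (hW x hx) (by rw [hG.hb, h, neg_neg])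
  have hsW : ∀ x ∈ W, a x ≠ s := fun x hx h => hs ⟨x, hx, h⟩
  let a' : V → ℝ := fun x => if x = v ∨ x = θ v then s else a x
  let b' : V → ℝ := fun x => if x = v then t else if x = θ v then -t else b x
  have hav : a' v = s := if_pos (Or.inl rfl)
  have haθv : a' (θ v) = s := if_pos (Or.inr rfl)
  have hbv : b' v = t := if_pos rfl
  have hbθv : b' (θ v) = -t := by
    change (if θ v = v then t else if θ v = θ v then -t else b (θ v)) = -t
    rw [if_neg hvθ, if_pos rfl]
  have haW : ∀ x, x ≠ v → x ≠ θ v → a' x = a x := by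
    intro x h1 h2
    exact if_neg (by rintro (h | h); exacts [h1 h, h2 h])
  have hbW : ∀ x, x ≠ v → x ≠ θ v → b' x = b x := by
    intro x h1 h2
    change (if x = v then t else if x = θ v then -t else b x) = b x
    rw [if_neg h1, if_neg h2]
  have hne : ∀ x ∈ W, x ≠ v ∧ x ≠ θ v := fun x hx =>
    ⟨fun h => hv (h ▸ hx), fun h => hθv (h ▸ hx)⟩
  refine ⟨a', b', ⟨?_, ?_, ?_, ?_⟩, ?_, ?_⟩
  · intro x
    by_cases h1 : x = v
    · rw [h1, haθv, hav]
    by_cases h2 : x = θ v
    · rw [h2, hθ, hav, haθv]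
    rw [haW x h1 h2, haW (θ x), hG.ha]
    · intro h; exact h2 (by rw [← h, hθ])
    · intro h; exact h1 (by rw [← hθ x, h, hθ])
  · intro x
    by_cases h1 : x = v
    · rw [h1, hbθv, hbv]
    by_cases h2 : x = θ v
    · rw [h2, hθ, hbv, hbθv, neg_neg]
    rw [hbW x h1 h2, hbW (θ x), hG.hb]
    · intro h; exact h2 (by rw [← h, hθ])
    · intro h; exact h1 (by rw [← hθ x, h, hθ])
  · intro x hx y hy hxy
    rw [Finset.mem_insert, Finset.mem_insert] at hx hy
    rcases hx with rfl | rfl | hx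
    · rcases hy with rfl | rfl | hy
      · exact Or.inl rfl
      · exact Or.inr rfl
      · rw [hav, haW y (hne y hy).1 (hne y hy).2] at hxy
        exact absurd hxy.symm (hsW y hy)
    · rcases hy with rfl | rfl | hy
      · exact Or.inr (hθ _).symm
      · exact Or.inl rfl
      · rw [haθv, haW y (hne y hy).1 (hne y hy).2] at hxy
        exact absurd hxy.symm (hsW y hy)
    · rcases hy with rfl | rfl | hy
      · rw [hav, haW x (hne x hx).1 (hne x hx).2] at hxy
        exact absurd hxy (hsW x hx)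
      · rw [haθv, haW x (hne x hx).1 (hne x hx).2] at hxy
        exact absurd hxy (hsW x hx)
      · rw [haW x (hne x hx).1 (hne x hx).2, haW y (hne y hy).1 (hne y hy).2] at hxy
        exact hG.ga x hx y hy hxy
  · intro x hx y hy hxy
    rw [Finset.mem_insert, Finset.mem_insert] at hx hy
    rcases hx with rfl | rfl | hx
    · rcases hy with rfl | rfl | hy
      · exact Or.inl rfl
      · rw [hbv, hbθv] at hxy
        exact absurd (by linarith : t = 0) ht0
      · rw [hbv, hbW y (hne y hy).1 (hne y hy).2] at hxy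
        exact absurd hxy.symm (htW y hy)
    · rcases hy with rfl | rfl | hy
      · rw [hbv, hbθv] at hxy
        exact absurd (by linarith : t = 0) ht0
      · exact Or.inl rfl
      · rw [hbθv, hbW y (hne y hy).1 (hne y hy).2] at hxy
        exact absurd hxy.symm (htW' y hy)
    · rcases hy with rfl | rfl | hy
      · rw [hbv, hbW x (hne x hx).1 (hne x hx).2] at hxy
        exact absurd hxy (htW x hx)
      · rw [hbθv, hbW x (hne x hx).1 (hne x hx).2] at hxy
        exact absurd hxy (htW' x hx)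
      · rw [hbW x (hne x hx).1 (hne x hx).2, hbW y (hne y hy).1 (hne y hy).2] at hxy
        exact hG.gb x hx y hy hxy
  · intro x hx
    exact ⟨haW x (hne x hx).1 (hne x hx).2, hbW x (hne x hx).1 (hne x hx).2⟩
  · rw [hav, hbv]
    exact hst

theorem extend_fixed (hθ : ∀ v, θ (θ v) = v) (W : Finset V) (hW : ∀ x ∈ W, θ x ∈ W)
    (a b : V → ℝ) (hG : Gen θ W a b) (v : V) (hv : v ∉ W) (hvθ : θ v = v) :
    ∃ a' b' : V → ℝ, Gen θ (insert v W) a' b' ∧
      (∀ x ∈ W, a' x = a x ∧ b' x = b x) ∧ b' v = 0 := by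
  obtain ⟨s, hs⟩ := (Set.infinite_univ (α := ℝ)).exists_notMem_finite (W.finite_toSet.image a)
  have hsW : ∀ x ∈ W, a x ≠ s := fun x hx h => hs.2 ⟨x, hx, h⟩
  let a' : V → ℝ := fun x => if x = v then s else a x
  let b' : V → ℝ := fun x => if x = v then 0 else b x
  have hav : a' v = s := if_pos rfl
  have hbv : b' v = 0 := if_pos rfl
  have haW : ∀ x, x ≠ v → a' x = a x := fun x h1 => if_neg h1
  have hbW : ∀ x, x ≠ v → b' x = b x := fun x h1 => if_neg h1
  have hne : ∀ x ∈ W, x ≠ v := fun x hx h => hv (h ▸ hx)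
  have hfix : ∀ x ∈ W, b x = 0 → θ x = x := by
    intro x hx h
    rcases hG.gb x hx (θ x) (hW x hx) (by rw [hG.hb, h, neg_zero]) with h1 | h1
    · exact h1
    · exact h1.1
  refine ⟨a', b', ⟨?_, ?_, ?_, ?_⟩, ?_, hbv⟩
  · intro x
    by_cases h1 : x = v
    · rw [h1, hvθ]
    rw [haW x h1, haW (θ x), hG.ha]
    intro h; exact h1 (by rw [← hθ x, h, hvθ])
  · intro x
    by_cases h1 : x = v
    · rw [h1, hvθ, hbv, neg_zero]
    rw [hbW x h1, hbW (θ x), hG.hb]
    intro h; exact h1 (by rw [← hθ x, h, hvθ])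
  · intro x hx y hy hxy
    rw [Finset.mem_insert] at hx hy
    rcases hx with rfl | hx
    · rcases hy with rfl | hy
      · exact Or.inl rfl
      · rw [hav, haW y (hne y hy)] at hxy
        exact absurd hxy.symm (hsW y hy)
    · rcases hy with rfl | hy
      · rw [hav, haW x (hne x hx)] at hxy
        exact absurd hxy (hsW x hx)
      · rw [haW x (hne x hx), haW y (hne y hy)] at hxy
        exact hG.ga x hx y hy hxy
  · intro x hx y hy hxy
    rw [Finset.mem_insert] at hx hy
    rcases hx with rfl | hx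
    · rcases hy with rfl | hy
      · exact Or.inl rfl
      · rw [hbv, hbW y (hne y hy)] at hxy
        exact Or.inr ⟨hvθ, hfix y hy hxy.symm⟩
    · rcases hy with rfl | hy
      · rw [hbv, hbW x (hne x hx)] at hxy
        exact Or.inr ⟨hfix x hx hxy, hvθ⟩
      · rw [hbW x (hne x hx), hbW y (hne y hy)] at hxy
        exact hG.gb x hx y hy hxy
  · intro x hx
    exact ⟨haW x (hne x hx), hbW x (hne x hx)⟩

end Pool.Agent.H789R4
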