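import Mathlib
import Pool.Agent.H789R4.Geo

set_option autoImplicit false
set_option linter.style.haveILetI false
set_option linter.unusedSectionVars false

namespace Pool.Agent.H789R4

open Finset

variable {V : Type} [DecidableEq V] (θ : V → V)

/-- add the edge `uw` and its mirror image -/
def add2 (μ : Sym2 V → ℕ) (u w : V) : Sym2 V → ℕ := fun e =>
  μ e + (if e = s(u, w) then 1 else 0) + (if e = s(θ u, θ w) then 1 else 0)

theorem ii_add2 (μ : Sym2 V → ℕ) (u w : V) (X : Finset V) :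
    ii (add2 θ μ u w) X = ii μ X + (if u ∈ X ∧ w ∈ X then 1 else 0) +
      (if θ u ∈ X ∧ θ w ∈ X then 1 else 0) := by
  unfold ii add2
  rw [Finset.sum_add_distrib, Finset.sum_add_distrib, Finset.sum_ite_eq', Finset.sum_ite_eq']
  simp only [Finset.mk_mem_sym2_iff]

theorem map_eq_iff (hθ : ∀ v, θ (θ v) = v) (e : Sym2 V) (u w : V) :
    e.map θ = s(u, w) ↔ e = s(θ u, θ w) := by
  constructor
  · intro h
    have := congrArg (Sym2.map θ) h
    rw [map_map' θ hθ, Sym2.map_mk] at this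
    exact this
  · rintro rfl
    simp [hθ]

theorem add2_inv (hθ : ∀ v, θ (θ v) = v) (μ : Sym2 V → ℕ) (hinv : ∀ e, μ (e.map θ) = μ e)
    (u w : V) (e : Sym2 V) : add2 θ μ u w (e.map θ) = add2 θ μ u w e := by
  unfold add2
  rw [hinv]
  have h1 := map_eq_iff θ hθ e u w
  have h2 := map_eq_iff θ hθ e (θ u) (θ w)
  rw [hθ, hθ] at h2
  simp only [h1, h2]
  ring

theorem add2_even (hθ : ∀ v, θ (θ v) = v) (μ : Sym2 V → ℕ)
    (heven : ∀ e, e.map θ = e → Even (μ e)) (u w : V) (e : Sym2 V) (he : e.map θ = e) :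
    Even (add2 θ μ u w e) := by
  unfold add2
  have h1 := map_eq_iff θ hθ e u w
  rw [he] at h1
  rw [add_assoc]
  refine (heven e he).add ?_
  by_cases h2 : e = s(u, w)
  · rw [if_pos h2, if_pos (h1.1 h2)]
    exact ⟨1, rfl⟩
  · rw [if_neg h2, if_neg (fun h => h2 (h1.2 h))]
    exact ⟨0, rfl⟩

theorem card_image (hθ : ∀ v, θ (θ v) = v) (X : Finset V) : (X.image θ).card = X.card :=
  Finset.card_image_of_injective _ (fun x y h => by rw [← hθ x, h, hθ])

theorem add2_sparse (hθ : ∀ v, θ (θ v) = v) (μ : Sym2 V → ℕ) (hinv : ∀ e, μ (e.map θ) = μ e)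
    (heven : ∀ e, e.map θ = e → Even (μ e)) (W : Finset V) (hW : ∀ x ∈ W, θ x ∈ W)
    (hsp : ∀ X ⊆ W, X.Nonempty → ii μ X + 2 ≤ 2 * X.card) (u w : V)
    (hblock : ∀ X ⊆ W, u ∈ X → w ∈ X → ii μ X + 2 ≠ 2 * X.card) :
    ∀ X ⊆ W, X.Nonempty → ii (add2 θ μ u w) X + 2 ≤ 2 * X.card := by
  intro X hX hne
  rw [ii_add2]
  have hY : X.image θ ⊆ W := by
    intro y hy
    rw [Finset.mem_image] at hy
    obtain ⟨x, hx, rfl⟩ := hy
    exact hW x (hX hx)
  have h0 := hsp X hX hne
  by_cases h1 : u ∈ X ∧ w ∈ X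
  · have h3 := hblock X hX h1.1 h1.2
    by_cases h2 : θ u ∈ X ∧ θ w ∈ X
    · rw [if_pos h1, if_pos h2]
      have huY : u ∈ X.image θ := Finset.mem_image.2 ⟨θ u, h2.1, hθ u⟩
      have hwY : w ∈ X.image θ := Finset.mem_image.2 ⟨θ w, h2.2, hθ w⟩
      have hsup := ii_super μ X (X.image θ)
      have hcard := Finset.card_union_add_card_inter X (X.image θ)
      rw [card_image θ hθ] at hcard
      rw [ii_image θ hθ μ hinv] at hsup
      have hU1 := hblock (X ∪ X.image θ) (Finset.union_subset hX hY)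
        (Finset.mem_union_left _ h1.1) (Finset.mem_union_left _ h1.2)
      have hU2 := hsp (X ∪ X.image θ) (Finset.union_subset hX hY)
        ⟨u, Finset.mem_union_left _ h1.1⟩
      have hI1 := hblock (X ∩ X.image θ) (Finset.inter_subset_left.trans hX)
        (Finset.mem_inter.2 ⟨h1.1, huY⟩) (Finset.mem_inter.2 ⟨h1.2, hwY⟩)
      have hI2 := hsp (X ∩ X.image θ) (Finset.inter_subset_left.trans hX)
        ⟨u, Finset.mem_inter.2 ⟨h1.1, huY⟩⟩
      have hUe : Even (ii μ (X ∪ X.image θ)) := by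
        apply ii_parity θ hθ μ hinv heven
        intro x hx
        rw [Finset.mem_union] at hx ⊢
        rcases hx with hx | hx
        · exact Or.inr (Finset.mem_image_of_mem θ hx)
        · rw [Finset.mem_image] at hx
          obtain ⟨y, hy, rfl⟩ := hx
          rw [hθ]
          exact Or.inl hy
      have hIe : Even (ii μ (X ∩ X.image θ)) := by
        apply ii_parity θ hθ μ hinv heven
        intro x hx
        rw [Finset.mem_inter] at hx ⊢
        refine ⟨?_, Finset.mem_image_of_mem θ hx.1⟩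
        obtain ⟨y, hy, hyx⟩ := Finset.mem_image.1 hx.2
        rw [← hyx, hθ]
        exact hy
      obtain ⟨p, hp⟩ := hUe
      obtain ⟨q, hq⟩ := hIe
      omega
    · rw [if_pos h1, if_neg h2]
      omega
  · rw [if_neg h1]
    by_cases h2 : θ u ∈ X ∧ θ w ∈ X
    · rw [if_pos h2]
      have huY : u ∈ X.image θ := Finset.mem_image.2 ⟨θ u, h2.1, hθ u⟩
      have hwY : w ∈ X.image θ := Finset.mem_image.2 ⟨θ w, h2.2, hθ w⟩
      have h3 := hblock (X.image θ) hY huY hwY
      rw [ii_image θ hθ μ hinv, card_image θ hθ] at h3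
      omega
    · rw [if_neg h2]
      omega

/-- two of the three pairs cannot both be blocked -/
theorem unblocked (μ : Sym2 V → ℕ) (hd : ∀ x, μ s(x, x) = 0) (W : Finset V) (v : V) (hv : v ∉ W)
    (hsp : ∀ X ⊆ W, X.Nonempty → ii μ X + 2 ≤ 2 * X.card)
    (hspv : ∀ X ⊆ W, ii μ (insert v X) + 2 ≤ 2 * (insert v X).card)
    (u1 u2 u3 : V) (h12 : u1 ≠ u2) (h13 : u1 ≠ u3) (h23 : u2 ≠ u3)
    (hm1 : μ s(v, u1) = 1) (hm2 : μ s(v, u2) = 1) (hm3 : μ s(v, u3) = 1) :
    (∀ X ⊆ W, u1 ∈ X → u2 ∈ X → ii μ X + 2 ≠ 2 * X.card) ∨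
    (∀ X ⊆ W, u1 ∈ X → u3 ∈ X → ii μ X + 2 ≠ 2 * X.card) := by
  by_contra hcon
  push Not at hcon
  obtain ⟨⟨X, hXW, hX1, hX2, hX⟩, ⟨Y, hYW, hY1, hY3, hY⟩⟩ := hcon
  have hsup := ii_super μ X Y
  have hcard := Finset.card_union_add_card_inter X Y
  have hI := hsp (X ∩ Y) (Finset.inter_subset_left.trans hXW) ⟨u1, Finset.mem_inter.2 ⟨hX1, hY1⟩⟩
  have hvU : v ∉ X ∪ Y := fun h => hv (Finset.union_subset hXW hYW h)
  have hU := hspv (X ∪ Y) (Finset.union_subset hXW hYW)
  rw [ii_insert μ _ v hvU (hd v), Finset.card_insert_of_notMem hvU] at hU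
  have hsum : 3 ≤ ∑ y ∈ X ∪ Y, μ s(v, y) := by
    have hsub : ({u1, u2, u3} : Finset V) ⊆ X ∪ Y := by
      intro x hx
      rw [Finset.mem_insert, Finset.mem_insert, Finset.mem_singleton] at hx
      rcases hx with rfl | rfl | rfl
      · exact Finset.mem_union_left _ hX1
      · exact Finset.mem_union_left _ hX2
      · exact Finset.mem_union_right _ hY3
    have h1 := Finset.sum_le_sum_of_subset (f := fun y => μ s(v, y)) hsub
    have h2 : ∑ y ∈ ({u1, u2, u3} : Finset V), μ s(v, y) = 3 := by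
      rw [Finset.sum_insert (by simp [h12, h13]), Finset.sum_insert (by simp [h23]),
        Finset.sum_singleton, hm1, hm2, hm3]
      norm_num
    rw [h2] at h1
    exact h1
  omega

/-- slope sign -/
def sl (a b : V → ℝ) (x y : V) : ℝ := (a x - a y) * (b x - b y)

theorem sl_comm (a b : V → ℝ) (x y : V) : sl a b x y = sl a b y x := by unfold sl; ring

/-- edges of the tree -/
def TT (μ : Sym2 V → ℕ) (a b : V → ℝ) (x y : V) : Prop :=
  2 ≤ μ s(x, y) ∨ (μ s(x, y) = 1 ∧ 0 < sl a b x y)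

theorem TT_comm (μ : Sym2 V → ℕ) (a b : V → ℝ) (x y : V) : TT μ a b x y ↔ TT μ a b y x := by
  unfold TT
  rw [sl_comm, Sym2.eq_swap]

theorem sl_theta {W : Finset V} {a b : V → ℝ} (hG : Gen θ W a b) (x y : V) :
    sl a b (θ x) (θ y) = - sl a b x y := by
  unfold sl
  rw [hG.ha, hG.ha, hG.hb, hG.hb]
  ring

theorem sl_ne {W : Finset V} {a b : V → ℝ} (hG : Gen θ W a b)
    {x y : V} (hx : x ∈ W) (hy : y ∈ W) (hxy : x ≠ y) (hfix : s(θ x, θ y) ≠ s(x, y))
    (hθ : ∀ v, θ (θ v) = v) : sl a b x y ≠ 0 := by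
  unfold sl
  rw [mul_ne_zero_iff, sub_ne_zero, sub_ne_zero]
  constructor
  · intro h
    rcases hG.ga x hx y hy h with h1 | h1
    · exact hxy h1.symm
    · apply hfix
      rw [h1, hθ, Sym2.eq_swap]
  · intro h
    rcases hG.gb x hx y hy h with h1 | h1
    · exact hxy h1.symm
    · apply hfix
      rw [h1.1, h1.2]

theorem Tcases (hθ : ∀ v, θ (θ v) = v) (μ : Sym2 V → ℕ) (hinv : ∀ e, μ (e.map θ) = μ e)
    (W : Finset V) (a b : V → ℝ) (hG : Gen θ W a b) (u w : V) (hu : u ∈ W) (hw : w ∈ W)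
    (huw : u ≠ w) :
    (∀ x y, TT (add2 θ μ u w) a b x y → TT μ a b x y ∨ s(x, y) = s(u, w)) ∨
    (∀ x y, TT (add2 θ μ u w) a b x y → TT μ a b x y ∨ s(x, y) = s(θ u, θ w)) := by
  have hother : ∀ x y, s(x, y) ≠ s(u, w) → s(x, y) ≠ s(θ u, θ w) →
      TT (add2 θ μ u w) a b x y → TT μ a b x y := by
    intro x y h1 h2 h
    unfold TT add2 at h
    rw [if_neg h1, if_neg h2] at h
    exact h
  by_cases hfix : s(θ u, θ w) = s(u, w)
  · left
    intro x y h
    by_cases h1 : s(x, y) = s(u, w)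
    · exact Or.inr h1
    · exact Or.inl (hother x y h1 (by rw [hfix]; exact h1) h)
  have hsl := sl_ne θ hG hu hw huw hfix hθ
  have hslθ := sl_theta θ hG u w
  have hμθ : μ s(θ u, θ w) = μ s(u, w) := hinv s(u, w)
  have hslpair : ∀ x y p q, s(x, y) = s(p, q) → sl a b x y = sl a b p q := by
    intro x y p q h
    rw [Sym2.eq_iff] at h
    rcases h with ⟨rfl, rfl⟩ | ⟨rfl, rfl⟩
    · rfl
    · exact sl_comm a b _ _
  have hpair : ∀ x y p q, s(x, y) = s(p, q) → TT μ a b p q → TT μ a b x y := by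
    intro x y p q h h'
    unfold TT at h' ⊢
    rw [h, hslpair x y p q h]
    exact h'
  by_cases h0 : μ s(u, w) = 0
  · rcases lt_or_gt_of_ne hsl with hneg | hpos
    · right
      intro x y h
      by_cases h2 : s(x, y) = s(θ u, θ w)
      · exact Or.inr h2
      by_cases h1 : s(x, y) = s(u, w)
      · exfalso
        unfold TT add2 at h
        rw [h1, if_pos rfl, if_neg (fun h => hfix h.symm), h0] at h
        rcases h with h | h
        · omega
        · rw [hslpair x y u w h1] at h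
          linarith [h.2]
      · exact Or.inl (hother x y h1 h2 h)
    · left
      intro x y h
      by_cases h1 : s(x, y) = s(u, w)
      · exact Or.inr h1
      by_cases h2 : s(x, y) = s(θ u, θ w)
      · exfalso
        unfold TT add2 at h
        rw [h2, if_pos rfl, if_neg hfix, hμθ, h0] at h
        rcases h with h | h
        · omega
        · rw [hslpair x y _ _ h2, hslθ] at h
          linarith [h.2]
      · exact Or.inl (hother x y h1 h2 h)
  · rcases lt_or_gt_of_ne hsl with hneg | hpos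
    · left
      intro x y h
      by_cases h1 : s(x, y) = s(u, w)
      · exact Or.inr h1
      by_cases h2 : s(x, y) = s(θ u, θ w)
      · left
        apply hpair x y _ _ h2
        unfold TT
        rw [hμθ, hslθ]
        by_cases h3 : 2 ≤ μ s(u, w)
        · exact Or.inl h3
        · exact Or.inr ⟨by omega, by linarith⟩
      · exact Or.inl (hother x y h1 h2 h)
    · right
      intro x y h
      by_cases h2 : s(x, y) = s(θ u, θ w)
      · exact Or.inr h2
      by_cases h1 : s(x, y) = s(u, w)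
      · left
        apply hpair x y _ _ h1
        unfold TT
        by_cases h3 : 2 ≤ μ s(u, w)
        · exact Or.inl h3
        · exact Or.inr ⟨by omega, hpos⟩
      · exact Or.inl (hother x y h1 h2 h)

/-- colourings constant along a relation -/
def CT (W : Finset V) (T : V → V → Prop) (g : V → Bool) : Prop :=
  ∀ x ∈ W, ∀ y ∈ W, T x y → g x = g y

def Conn (W : Finset V) (T : V → V → Prop) : Prop :=
  ∀ g : V → Bool, CT W T g → ∀ x ∈ W, ∀ y ∈ W, g x = g y

theorem two_comp (W : Finset V) (T : V → V → Prop) (u w z : V) (hu : u ∈ W) (hw : w ∈ W)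
    (hz : z ∈ W)
    (H : ∀ g : V → Bool, CT W T g → g u = g w → ∀ x ∈ W, ∀ y ∈ W, g x = g y) :
    (∀ g : V → Bool, CT W T g → g z = g u) ∨ (∀ g : V → Bool, CT W T g → g z = g w) := by
  by_contra hcon
  push Not at hcon
  obtain ⟨⟨g1, h1, h1'⟩, ⟨g2, h2, h2'⟩⟩ := hcon
  have e1 : g1 u ≠ g1 w := fun h => h1' (H g1 h1 h z hz u hu)
  have e2 : g2 u ≠ g2 w := fun h => h2' (H g2 h2 h z hz w hw)
  have h3 := H (fun x => xor (g1 x) (g2 x)) (by
    intro x hx y hy hxy
    change xor (g1 x) (g2 x) = xor (g1 y) (g2 y)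
    rw [h1 x hx y hy hxy, h2 x hx y hy hxy]) (by
    revert e1 e2
    cases g1 u <;> cases g1 w <;> cases g2 u <;> cases g2 w <;> simp) z hz u hu
  revert e1 e2 h1' h2' h3
  cases g1 u <;> cases g1 w <;> cases g2 u <;> cases g2 w <;> cases g1 z <;> cases g2 z <;> simp

end Pool.Agent.H789R4
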