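import Mathlib
import Pool.Agent.H789R4.Step

set_option autoImplicit false
set_option linter.style.haveILetI false
set_option linter.unusedSectionVars false

namespace Pool.Agent.H789R4

open Finset

variable {V : Type} [DecidableEq V] (θ : V → V)

theorem dec_pos (f : V → ℕ) (S : Finset V) (h : 0 < ∑ y ∈ S, f y) : ∃ u ∈ S, 0 < f u := by
  by_contra hcon
  push Not at hcon
  have : ∑ y ∈ S, f y = 0 := Finset.sum_eq_zero (fun y hy => Nat.le_zero.1 (hcon y hy))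
  omega

theorem dec2 (f : V → ℕ) (S : Finset V) (h : ∑ y ∈ S, f y = 2) :
    (∃ u ∈ S, 2 ≤ f u) ∨ (∃ u ∈ S, ∃ w ∈ S, u ≠ w ∧ f u = 1 ∧ f w = 1) := by
  obtain ⟨u, hu, hfu⟩ := dec_pos f S (by omega)
  by_cases h2 : 2 ≤ f u
  · exact Or.inl ⟨u, hu, h2⟩
  have h1 : f u = 1 := by omega
  have hs := Finset.add_sum_erase S f hu
  obtain ⟨w, hw, hfw⟩ := dec_pos f (S.erase u) (by omega)
  have hle := Finset.single_le_sum (f := f) (fun _ _ => Nat.zero_le _) hw
  rw [Finset.mem_erase] at hw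
  exact Or.inr ⟨u, hu, w, hw.2, hw.1.symm, h1, by omega⟩

theorem dec3 (f : V → ℕ) (S : Finset V) (h : ∑ y ∈ S, f y = 3) (h2 : ∀ y ∈ S, f y ≤ 2) :
    (∃ u ∈ S, ∃ w ∈ S, u ≠ w ∧ f u = 2 ∧ f w = 1) ∨
    (∃ u ∈ S, ∃ w ∈ S, ∃ z ∈ S, u ≠ w ∧ u ≠ z ∧ w ≠ z ∧ f u = 1 ∧ f w = 1 ∧ f z = 1) := by
  obtain ⟨u, hu, hfu⟩ := dec_pos f S (by omega)
  have hs := Finset.add_sum_erase S f hu
  have hu2 := h2 u hu
  by_cases h1 : f u = 2
  · obtain ⟨w, hw, hfw⟩ := dec_pos f (S.erase u) (by omega)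
    have hle := Finset.single_le_sum (f := f) (fun _ _ => Nat.zero_le _) hw
    rw [Finset.mem_erase] at hw
    exact Or.inl ⟨u, hu, w, hw.2, hw.1.symm, h1, by omega⟩
  · have hu1 : f u = 1 := by omega
    rcases dec2 f (S.erase u) (by omega) with ⟨w, hw, hfw⟩ | ⟨w, hw, z, hz, hwz, hfw, hfz⟩
    · rw [Finset.mem_erase] at hw
      have := h2 w hw.2
      exact Or.inl ⟨w, hw.2, u, hu, hw.1, by omega, hu1⟩
    · rw [Finset.mem_erase] at hw hz
      exact Or.inr ⟨u, hu, w, hw.2, z, hz.2, hw.1.symm, hz.1.symm, hwz, hu1, hfw, hfz⟩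

structure Adm (W : Finset V) (μ : Sym2 V → ℕ) : Prop where
  hW : ∀ x ∈ W, θ x ∈ W
  hd : ∀ x, μ s(x, x) = 0
  hinv : ∀ e, μ (e.map θ) = μ e
  heven : ∀ e, e.map θ = e → Even (μ e)
  hsp : ∀ X ⊆ W, X.Nonempty → ii μ X + 2 ≤ 2 * X.card
  ht : ii μ W + 2 = 2 * W.card

theorem link (hθ : ∀ v, θ (θ v) = v) (μ : Sym2 V → ℕ) (hd : ∀ x, μ s(x, x) = 0)
    (hinv : ∀ e, μ (e.map θ) = μ e)
    (heven : ∀ e, e.map θ = e → Even (μ e)) (W : Finset V) (a b : V → ℝ) (hG : Gen θ W a b)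
    (x y : V) (hx : x ∈ W) (hy : y ∈ W) (h : 0 < μ s(x, y)) :
    TT μ a b x y ∨ TT μ a b (θ x) (θ y) := by
  have hμθ : μ s(θ x, θ y) = μ s(x, y) := hinv s(x, y)
  by_cases h2 : 2 ≤ μ s(x, y)
  · exact Or.inl (Or.inl h2)
  have h1 : μ s(x, y) = 1 := by omega
  have hxy : x ≠ y := by
    rintro rfl
    rw [hd] at h1
    omega
  have hfix : s(θ x, θ y) ≠ s(x, y) := by
    intro h3
    obtain ⟨r, hr⟩ := heven s(x, y) h3
    omega
  have hsl := sl_ne θ hG hx hy hxy hfix hθ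
  rcases lt_or_gt_of_ne hsl with hneg | hpos
  · right
    right
    refine ⟨by rw [hμθ, h1], ?_⟩
    rw [sl_theta θ hG]
    linarith
  · left
    exact Or.inr ⟨h1, hpos⟩

theorem CT_restrict (μ : Sym2 V → ℕ) (W W' : Finset V) (hsub : W' ⊆ W) (a b a' b' : V → ℝ)
    (hagree : ∀ x ∈ W', a' x = a x ∧ b' x = b x) (g : V → Bool) (hg : CT W (TT μ a' b') g) :
    CT W' (TT μ a b) g := by
  intro x hx y hy h
  apply hg x (hsub hx) y (hsub hy)
  unfold TT sl at h ⊢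
  rw [(hagree x hx).1, (hagree x hx).2, (hagree y hy).1, (hagree y hy).2]
  exact h

theorem conn_of (W' : Finset V) (v : V) (T' : V → V → Prop)
    (h : ∀ g, CT (insert v (insert (θ v) W')) T' g → (∀ x ∈ W', ∀ y ∈ W', g x = g y) ∧
      (∃ y ∈ W', g v = g y) ∧ (∃ y ∈ W', g (θ v) = g y)) :
    Conn (insert v (insert (θ v) W')) T' := by
  intro g hg
  obtain ⟨h1, ⟨y1, hy1, hy1'⟩, ⟨y2, hy2, hy2'⟩⟩ := h g hg
  have key : ∀ x ∈ insert v (insert (θ v) W'), g x = g y1 := by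
    intro x hx
    rw [Finset.mem_insert, Finset.mem_insert] at hx
    rcases hx with rfl | rfl | hx
    · exact hy1'
    · rw [hy2']; exact h1 _ hy2 _ hy1
    · exact h1 _ hx _ hy1
  intro x hx y hy
  rw [key x hx, key y hy]

/-- the degree-three step, first orientation -/
theorem fin3 (hθ : ∀ v, θ (θ v) = v) (μ : Sym2 V → ℕ) (hinv : ∀ e, μ (e.map θ) = μ e)
    (W : Finset V) (hW : ∀ x ∈ W, θ x ∈ W) (a b : V → ℝ) (hG : Gen θ W a b)
    (v : V) (hv : v ∉ W) (hvθ : θ v ≠ v) (x y1 y2 : V) (hx : x ∈ W) (hy1 : y1 ∈ W) (hy2 : y2 ∈ W)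
    (h12 : y1 ≠ y2) (hmx : μ s(v, x) = 1) (hm1 : μ s(v, y1) = 1) (hm2 : μ s(v, y2) = 1)
    (K : ∀ g : V → Bool, CT W (TT μ a b) g → (g x = g y1 ∨ g x = g y2) →
      ∀ x ∈ W, ∀ y ∈ W, g x = g y) :
    ∃ a' b' : V → ℝ, Gen θ (insert v (insert (θ v) W)) a' b' ∧
      Conn (insert v (insert (θ v) W)) (TT μ a' b') := by
  have hpt : a y1 ≠ a y2 ∨ b y1 ≠ b y2 := by
    by_contra hcon
    push Not at hcon
    rcases hG.ga y1 hy1 y2 hy2 hcon.1 with h | h
    · exact h12 h.symm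
    · rcases hG.gb y1 hy1 y2 hy2 hcon.2 with h' | h'
      · exact h12 h'.symm
      · exact h12 (by rw [h, h'.1])
  let U : Set (ℝ × ℝ) := {p | 0 < (p.1 - a x) * (p.2 - b x) ∧
    ((p.1 - a y1) * (p.2 - b y1)) * ((p.1 - a y2) * (p.2 - b y2)) < 0}
  have hU : IsOpen U := by
    have h1 : IsOpen {p : ℝ × ℝ | 0 < (p.1 - a x) * (p.2 - b x)} :=
      isOpen_lt continuous_const (by fun_prop)
    have h2 : IsOpen {p : ℝ × ℝ |
        ((p.1 - a y1) * (p.2 - b y1)) * ((p.1 - a y2) * (p.2 - b y2)) < 0} :=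
      isOpen_lt (by fun_prop) continuous_const
    exact h1.inter h2
  have hne : U.Nonempty := by
    obtain ⟨s, t, h1, h2⟩ := geo3 (a x) (b x) (a y1) (b y1) (a y2) (b y2) hpt
    exact ⟨(s, t), h1, h2⟩
  obtain ⟨a', b', hG', hagree, hU'⟩ := extend θ hθ W hW a b hG v hv hvθ U hU hne
  refine ⟨a', b', hG', conn_of θ W v _ ?_⟩
  intro g hg
  have hsub : W ⊆ insert v (insert (θ v) W) := fun z hz =>
    Finset.mem_insert_of_mem (Finset.mem_insert_of_mem hz)
  have hvm : v ∈ insert v (insert (θ v) W) := Finset.mem_insert_self _ _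
  have hθvm : θ v ∈ insert v (insert (θ v) W) :=
    Finset.mem_insert_of_mem (Finset.mem_insert_self _ _)
  have hg' := CT_restrict μ _ W hsub a b a' b' hagree g hg
  have hslv : ∀ y ∈ W, sl a' b' v y = (a' v - a y) * (b' v - b y) := by
    intro y hy
    unfold sl
    rw [(hagree y hy).1, (hagree y hy).2]
  have hpos : ∀ y ∈ W, μ s(v, y) = 1 → 0 < sl a' b' v y → g v = g y := by
    intro y hy hm hs
    exact hg v hvm y (hsub hy) (Or.inr ⟨hm, hs⟩)
  have hneg : ∀ y ∈ W, μ s(v, y) = 1 → sl a' b' v y < 0 → g (θ v) = g (θ y) := by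
    intro y hy hm hs
    refine hg (θ v) hθvm (θ y) (hsub (hW y hy)) (Or.inr ⟨?_, ?_⟩)
    · exact (hinv s(v, y)).trans hm
    · rw [sl_theta θ hG']; linarith
  obtain ⟨h1, h2⟩ : 0 < (a' v - a x) * (b' v - b x) ∧
    ((a' v - a y1) * (b' v - b y1)) * ((a' v - a y2) * (b' v - b y2)) < 0 := hU'
  rw [← hslv x hx] at h1
  rw [← hslv y1 hy1, ← hslv y2 hy2] at h2
  have gx := hpos x hx hmx h1
  rcases lt_trichotomy (sl a' b' v y1) 0 with hs | hs | hs
  · have hs2 : 0 < sl a' b' v y2 := by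
      by_contra hcon
      rw [not_lt] at hcon
      nlinarith
    have g2 := hpos y2 hy2 hm2 hs2
    have g1 := hneg y1 hy1 hm1 hs
    have hc := K g hg' (Or.inr (gx.symm.trans g2))
    exact ⟨hc, ⟨x, hx, gx⟩, ⟨θ y1, hW _ hy1, g1⟩⟩
  · rw [hs, zero_mul] at h2
    exact absurd h2 (lt_irrefl _)
  · have hs2 : sl a' b' v y2 < 0 := by
      by_contra hcon
      rw [not_lt] at hcon
      nlinarith
    have g1 := hpos y1 hy1 hm1 hs
    have g2 := hneg y2 hy2 hm2 hs2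
    have hc := K g hg' (Or.inl (gx.symm.trans g1))
    exact ⟨hc, ⟨x, hx, gx⟩, ⟨θ y2, hW _ hy2, g2⟩⟩

/-- the degree-three step, second orientation -/
theorem fin3' (hθ : ∀ v, θ (θ v) = v) (μ : Sym2 V → ℕ) (hinv : ∀ e, μ (e.map θ) = μ e)
    (W : Finset V) (hW : ∀ x ∈ W, θ x ∈ W) (a b : V → ℝ) (hG : Gen θ W a b)
    (v : V) (hv : v ∉ W) (hvθ : θ v ≠ v) (x y1 y2 : V) (hx : x ∈ W) (hy1 : y1 ∈ W) (hy2 : y2 ∈ W)
    (h12 : y1 ≠ y2) (hmx : μ s(v, x) = 1) (hm1 : μ s(v, y1) = 1) (hm2 : μ s(v, y2) = 1)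
    (K : ∀ g : V → Bool, CT W (TT μ a b) g → (g (θ x) = g (θ y1) ∨ g (θ x) = g (θ y2)) →
      ∀ x ∈ W, ∀ y ∈ W, g x = g y) :
    ∃ a' b' : V → ℝ, Gen θ (insert v (insert (θ v) W)) a' b' ∧
      Conn (insert v (insert (θ v) W)) (TT μ a' b') := by
  have hpt : a y1 ≠ a y2 ∨ b y1 ≠ b y2 := by
    by_contra hcon
    push Not at hcon
    rcases hG.ga y1 hy1 y2 hy2 hcon.1 with h | h
    · exact h12 h.symm
    · rcases hG.gb y1 hy1 y2 hy2 hcon.2 with h' | h'
      · exact h12 h'.symm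
      · exact h12 (by rw [h, h'.1])
  let U : Set (ℝ × ℝ) := {p | (p.1 - a x) * (p.2 - b x) < 0 ∧
    ((p.1 - a y1) * (p.2 - b y1)) * ((p.1 - a y2) * (p.2 - b y2)) < 0}
  have hU : IsOpen U := by
    have h1 : IsOpen {p : ℝ × ℝ | (p.1 - a x) * (p.2 - b x) < 0} :=
      isOpen_lt (by fun_prop) continuous_const
    have h2 : IsOpen {p : ℝ × ℝ |
        ((p.1 - a y1) * (p.2 - b y1)) * ((p.1 - a y2) * (p.2 - b y2)) < 0} :=
      isOpen_lt (by fun_prop) continuous_const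
    exact h1.inter h2
  have hne : U.Nonempty := by
    obtain ⟨s, t, h1, h2⟩ := geo3neg (a x) (b x) (a y1) (b y1) (a y2) (b y2) hpt
    exact ⟨(s, t), h1, h2⟩
  obtain ⟨a', b', hG', hagree, hU'⟩ := extend θ hθ W hW a b hG v hv hvθ U hU hne
  refine ⟨a', b', hG', conn_of θ W v _ ?_⟩
  intro g hg
  have hsub : W ⊆ insert v (insert (θ v) W) := fun z hz =>
    Finset.mem_insert_of_mem (Finset.mem_insert_of_mem hz)
  have hvm : v ∈ insert v (insert (θ v) W) := Finset.mem_insert_self _ _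
  have hθvm : θ v ∈ insert v (insert (θ v) W) :=
    Finset.mem_insert_of_mem (Finset.mem_insert_self _ _)
  have hg' := CT_restrict μ _ W hsub a b a' b' hagree g hg
  have hslv : ∀ y ∈ W, sl a' b' v y = (a' v - a y) * (b' v - b y) := by
    intro y hy
    unfold sl
    rw [(hagree y hy).1, (hagree y hy).2]
  have hpos : ∀ y ∈ W, μ s(v, y) = 1 → 0 < sl a' b' v y → g v = g y := by
    intro y hy hm hs
    exact hg v hvm y (hsub hy) (Or.inr ⟨hm, hs⟩)
  have hneg : ∀ y ∈ W, μ s(v, y) = 1 → sl a' b' v y < 0 → g (θ v) = g (θ y) := by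
    intro y hy hm hs
    refine hg (θ v) hθvm (θ y) (hsub (hW y hy)) (Or.inr ⟨?_, ?_⟩)
    · exact (hinv s(v, y)).trans hm
    · rw [sl_theta θ hG']; linarith
  obtain ⟨h1, h2⟩ : (a' v - a x) * (b' v - b x) < 0 ∧
    ((a' v - a y1) * (b' v - b y1)) * ((a' v - a y2) * (b' v - b y2)) < 0 := hU'
  rw [← hslv x hx] at h1
  rw [← hslv y1 hy1, ← hslv y2 hy2] at h2
  have gx := hneg x hx hmx h1
  rcases lt_trichotomy (sl a' b' v y1) 0 with hs | hs | hs
  · have hs2 : 0 < sl a' b' v y2 := by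
      by_contra hcon
      rw [not_lt] at hcon
      nlinarith
    have g2 := hpos y2 hy2 hm2 hs2
    have g1 := hneg y1 hy1 hm1 hs
    have hc := K g hg' (Or.inl (gx.symm.trans g1))
    exact ⟨hc, ⟨y2, hy2, g2⟩, ⟨θ y1, hW _ hy1, g1⟩⟩
  · rw [hs, zero_mul] at h2
    exact absurd h2 (lt_irrefl _)
  · have hs2 : sl a' b' v y2 < 0 := by
      by_contra hcon
      rw [not_lt] at hcon
      nlinarith
    have g1 := hpos y1 hy1 hm1 hs
    have g2 := hneg y2 hy2 hm2 hs2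
    have hc := K g hg' (Or.inr (gx.symm.trans g2))
    exact ⟨hc, ⟨y1, hy1, g1⟩, ⟨θ y2, hW _ hy2, g2⟩⟩

/-- a vertex of small degree -/
theorem exists_small (μ : Sym2 V → ℕ) (W : Finset V) (hd : ∀ x, μ s(x, x) = 0)
    (ht : ii μ W + 2 = 2 * W.card) :
    ∃ v ∈ W, ∑ y ∈ W, μ s(v, y) ≤ 3 := by
  by_contra hcon
  push Not at hcon
  have h1 := handshake μ hd W
  have h2 := Finset.card_nsmul_le_sum W (fun x => ∑ y ∈ W, μ s(x, y)) 4
    (fun x hx => hcon x hx)
  rw [h1, smul_eq_mul] at h2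
  omega

/-- the whole degree-three case with three simple edges, after the reduction -/
theorem case3 (hθ : ∀ v, θ (θ v) = v) (μ : Sym2 V → ℕ) (hinv : ∀ e, μ (e.map θ) = μ e)
    (W : Finset V) (hW : ∀ x ∈ W, θ x ∈ W)
    (v : V) (hv : v ∉ W) (hvθ : θ v ≠ v) (u w z : V) (hu : u ∈ W) (hw : w ∈ W) (hz : z ∈ W)
    (huw : u ≠ w) (huz : u ≠ z) (hwz : w ≠ z)
    (hmu : μ s(v, u) = 1) (hmw : μ s(v, w) = 1) (hmz : μ s(v, z) = 1)
    (a b : V → ℝ) (hG : Gen θ W a b) (hC : Conn W (TT (add2 θ μ u w) a b)) :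
    ∃ a' b' : V → ℝ, Gen θ (insert v (insert (θ v) W)) a' b' ∧
      Conn (insert v (insert (θ v) W)) (TT μ a' b') := by
  have hpairg : ∀ (g : V → Bool) (x y p q : V), s(x, y) = s(p, q) → g p = g q → g x = g y := by
    intro g x y p q h hg
    rw [Sym2.eq_iff] at h
    rcases h with ⟨rfl, rfl⟩ | ⟨rfl, rfl⟩
    · exact hg
    · exact hg.symm
  rcases Tcases θ hθ μ hinv W a b hG u w hu hw huw with hT | hT
  · have H : ∀ g : V → Bool, CT W (TT μ a b) g → g u = g w → ∀ x ∈ W, ∀ y ∈ W, g x = g y := by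
      intro g hg hguw
      apply hC
      intro x hx y hy hxy
      rcases hT x y hxy with h | h
      · exact hg x hx y hy h
      · exact hpairg g x y u w h hguw
    rcases two_comp W (TT μ a b) u w z hu hw hz H with h | h
    · -- z is joined to u
      refine fin3 θ hθ μ hinv W hW a b hG v hv hvθ w u z hw hu hz huz hmw hmu hmz ?_
      intro g hg hor
      apply H g hg
      rcases hor with h1 | h1
      · exact h1.symm
      · rw [h1, h g hg]
    · refine fin3 θ hθ μ hinv W hW a b hG v hv hvθ u w z hu hw hz hwz hmu hmw hmz ?_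
      intro g hg hor
      apply H g hg
      rcases hor with h1 | h1
      · exact h1
      · rw [h1, h g hg]
  · have H : ∀ g : V → Bool, CT W (TT μ a b) g → g (θ u) = g (θ w) →
        ∀ x ∈ W, ∀ y ∈ W, g x = g y := by
      intro g hg hguw
      apply hC
      intro x hx y hy hxy
      rcases hT x y hxy with h | h
      · exact hg x hx y hy h
      · exact hpairg g x y _ _ h hguw
    rcases two_comp W (TT μ a b) (θ u) (θ w) (θ z) (hW _ hu) (hW _ hw) (hW _ hz) H with h | h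
    · refine fin3' θ hθ μ hinv W hW a b hG v hv hvθ w u z hw hu hz huz hmw hmu hmz ?_
      intro g hg hor
      apply H g hg
      rcases hor with h1 | h1
      · exact h1.symm
      · rw [h1, h g hg]
    · refine fin3' θ hθ μ hinv W hW a b hG v hv hvθ u w z hu hw hz hwz hmu hmw hmz ?_
      intro g hg hor
      apply H g hg
      rcases hor with h1 | h1
      · exact h1
      · rw [h1, h g hg]

/-- the degree-three case with a double edge, after the reduction -/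
theorem case21 (hθ : ∀ v, θ (θ v) = v) (μ : Sym2 V → ℕ) (hinv : ∀ e, μ (e.map θ) = μ e)
    (W : Finset V) (hW : ∀ x ∈ W, θ x ∈ W)
    (v : V) (hv : v ∉ W) (hvθ : θ v ≠ v) (u w : V) (hu : u ∈ W) (hw : w ∈ W)
    (huw : u ≠ w)
    (hmu : μ s(v, u) = 2) (hmw : μ s(v, w) = 1)
    (a b : V → ℝ) (hG : Gen θ W a b) (hC : Conn W (TT (add2 θ μ u w) a b)) :
    ∃ a' b' : V → ℝ, Gen θ (insert v (insert (θ v) W)) a' b' ∧
      Conn (insert v (insert (θ v) W)) (TT μ a' b') := by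
  have hpairg : ∀ (g : V → Bool) (x y p q : V), s(x, y) = s(p, q) → g p = g q → g x = g y := by
    intro g x y p q h hg
    rw [Sym2.eq_iff] at h
    rcases h with ⟨rfl, rfl⟩ | ⟨rfl, rfl⟩
    · exact hg
    · exact hg.symm
  have hsub : W ⊆ insert v (insert (θ v) W) := fun z hz =>
    Finset.mem_insert_of_mem (Finset.mem_insert_of_mem hz)
  have hvm : v ∈ insert v (insert (θ v) W) := Finset.mem_insert_self _ _
  have hθvm : θ v ∈ insert v (insert (θ v) W) :=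
    Finset.mem_insert_of_mem (Finset.mem_insert_self _ _)
  have hmuθ : μ s(θ v, θ u) = 2 := (hinv s(v, u)).trans hmu
  have hmwθ : μ s(θ v, θ w) = 1 := (hinv s(v, w)).trans hmw
  rcases Tcases θ hθ μ hinv W a b hG u w hu hw huw with hT | hT
  · have hU : IsOpen {p : ℝ × ℝ | 0 < (p.1 - a w) * (p.2 - b w)} :=
      isOpen_lt continuous_const (by fun_prop)
    have hne : {p : ℝ × ℝ | 0 < (p.1 - a w) * (p.2 - b w)}.Nonempty :=
      ⟨(a w + 1, b w + 1), by change 0 < (a w + 1 - a w) * (b w + 1 - b w); norm_num⟩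
    obtain ⟨a', b', hG', hagree, hU'⟩ := extend θ hθ W hW a b hG v hv hvθ _ hU hne
    refine ⟨a', b', hG', conn_of θ W v _ ?_⟩
    intro g hg
    have hg' := CT_restrict μ _ W hsub a b a' b' hagree g hg
    have h1 : g v = g u := hg v hvm u (hsub hu) (Or.inl (by rw [hmu]))
    have h2 : g (θ v) = g (θ u) := hg _ hθvm _ (hsub (hW _ hu)) (Or.inl (by rw [hmuθ]))
    have h3 : g v = g w := by
      apply hg v hvm w (hsub hw)
      refine Or.inr ⟨hmw, ?_⟩
      unfold sl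
      rw [(hagree w hw).1, (hagree w hw).2]
      exact hU'
    refine ⟨?_, ⟨u, hu, h1⟩, ⟨θ u, hW _ hu, h2⟩⟩
    apply hC
    intro x hx y hy hxy
    rcases hT x y hxy with h | h
    · exact hg' x hx y hy h
    · exact hpairg g x y u w h (h1.symm.trans h3)
  · have hU : IsOpen {p : ℝ × ℝ | (p.1 - a w) * (p.2 - b w) < 0} :=
      isOpen_lt (by fun_prop) continuous_const
    have hne : {p : ℝ × ℝ | (p.1 - a w) * (p.2 - b w) < 0}.Nonempty :=
      ⟨(a w + 1, b w - 1), by change (a w + 1 - a w) * (b w - 1 - b w) < 0; norm_num⟩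
    obtain ⟨a', b', hG', hagree, hU'⟩ := extend θ hθ W hW a b hG v hv hvθ _ hU hne
    refine ⟨a', b', hG', conn_of θ W v _ ?_⟩
    intro g hg
    have hg' := CT_restrict μ _ W hsub a b a' b' hagree g hg
    have h1 : g v = g u := hg v hvm u (hsub hu) (Or.inl (by rw [hmu]))
    have h2 : g (θ v) = g (θ u) := hg _ hθvm _ (hsub (hW _ hu)) (Or.inl (by rw [hmuθ]))
    have h3 : g (θ v) = g (θ w) := by
      apply hg _ hθvm _ (hsub (hW _ hw))
      refine Or.inr ⟨hmwθ, ?_⟩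
      rw [sl_theta θ hG']
      unfold sl
      rw [(hagree w hw).1, (hagree w hw).2]
      have : (a' v - a w) * (b' v - b w) < 0 := hU'
      linarith
    refine ⟨?_, ⟨u, hu, h1⟩, ⟨θ u, hW _ hu, h2⟩⟩
    apply hC
    intro x hx y hy hxy
    rcases hT x y hxy with h | h
    · exact hg' x hx y hy h
    · exact hpairg g x y _ _ h (h2.symm.trans h3)

/-- degree two, two simple edges -/
theorem case2 (hθ : ∀ v, θ (θ v) = v) (μ : Sym2 V → ℕ) (hinv : ∀ e, μ (e.map θ) = μ e)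
    (W : Finset V) (hW : ∀ x ∈ W, θ x ∈ W)
    (v : V) (hv : v ∉ W) (hvθ : θ v ≠ v) (u w : V) (hu : u ∈ W) (hw : w ∈ W)
    (huw : u ≠ w)
    (hmu : μ s(v, u) = 1) (hmw : μ s(v, w) = 1)
    (a b : V → ℝ) (hG : Gen θ W a b) (hC : Conn W (TT μ a b)) :
    ∃ a' b' : V → ℝ, Gen θ (insert v (insert (θ v) W)) a' b' ∧
      Conn (insert v (insert (θ v) W)) (TT μ a' b') := by
  have hpt : a u ≠ a w ∨ b u ≠ b w := by
    by_contra hcon
    push Not at hcon
    rcases hG.ga u hu w hw hcon.1 with h | h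
    · exact huw h.symm
    · rcases hG.gb u hu w hw hcon.2 with h' | h'
      · exact huw h'.symm
      · exact huw (by rw [h, h'.1])
  have hsub : W ⊆ insert v (insert (θ v) W) := fun z hz =>
    Finset.mem_insert_of_mem (Finset.mem_insert_of_mem hz)
  have hvm : v ∈ insert v (insert (θ v) W) := Finset.mem_insert_self _ _
  have hθvm : θ v ∈ insert v (insert (θ v) W) :=
    Finset.mem_insert_of_mem (Finset.mem_insert_self _ _)
  have hU : IsOpen {p : ℝ × ℝ |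
      ((p.1 - a u) * (p.2 - b u)) * ((p.1 - a w) * (p.2 - b w)) < 0} :=
    isOpen_lt (by fun_prop) continuous_const
  have hne : {p : ℝ × ℝ |
      ((p.1 - a u) * (p.2 - b u)) * ((p.1 - a w) * (p.2 - b w)) < 0}.Nonempty := by
    obtain ⟨s, t, -, h2⟩ := geo3 0 0 (a u) (b u) (a w) (b w) hpt
    exact ⟨(s, t), h2⟩
  obtain ⟨a', b', hG', hagree, hU'⟩ := extend θ hθ W hW a b hG v hv hvθ _ hU hne
  refine ⟨a', b', hG', conn_of θ W v _ ?_⟩
  intro g hg
  have hg' := CT_restrict μ _ W hsub a b a' b' hagree g hg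
  have hslv : ∀ y ∈ W, sl a' b' v y = (a' v - a y) * (b' v - b y) := by
    intro y hy
    unfold sl
    rw [(hagree y hy).1, (hagree y hy).2]
  have hpos : ∀ y ∈ W, μ s(v, y) = 1 → 0 < sl a' b' v y → g v = g y := by
    intro y hy hm hs
    exact hg v hvm y (hsub hy) (Or.inr ⟨hm, hs⟩)
  have hneg : ∀ y ∈ W, μ s(v, y) = 1 → sl a' b' v y < 0 → g (θ v) = g (θ y) := by
    intro y hy hm hs
    refine hg (θ v) hθvm (θ y) (hsub (hW y hy)) (Or.inr ⟨?_, ?_⟩)
    · exact (hinv s(v, y)).trans hm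
    · rw [sl_theta θ hG']; linarith
  have h2 : ((a' v - a u) * (b' v - b u)) * ((a' v - a w) * (b' v - b w)) < 0 := hU'
  rw [← hslv u hu, ← hslv w hw] at h2
  refine ⟨hC g hg', ?_⟩
  rcases lt_trichotomy (sl a' b' v u) 0 with hs | hs | hs
  · have hs2 : 0 < sl a' b' v w := by
      by_contra hcon
      rw [not_lt] at hcon
      nlinarith
    exact ⟨⟨w, hw, hpos w hw hmw hs2⟩, ⟨θ u, hW _ hu, hneg u hu hmu hs⟩⟩
  · rw [hs, zero_mul] at h2
    exact absurd h2 (lt_irrefl _)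
  · have hs2 : sl a' b' v w < 0 := by
      by_contra hcon
      rw [not_lt] at hcon
      nlinarith
    exact ⟨⟨u, hu, hpos u hu hmu hs⟩, ⟨θ w, hW _ hw, hneg w hw hmw hs2⟩⟩

end Pool.Agent.H789R4
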