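import Mathlib
import Pool.Agent.H789R4.Main

set_option autoImplicit false
set_option linter.style.haveILetI false
set_option linter.unusedSectionVars false

namespace Pool.Agent.H789R4

open Finset

variable {V : Type} [DecidableEq V] (θ : V → V)

theorem main_ind (hθ : ∀ v, θ (θ v) = v) : ∀ (n : ℕ) (W : Finset V) (μ : Sym2 V → ℕ),
    W.card = n → Adm θ W μ → ∃ a b : V → ℝ, Gen θ W a b ∧ Conn W (TT μ a b) := by
  intro n
  induction n using Nat.strong_induction_on with
  | _ n ih =>
  intro W μ hn hA
  obtain ⟨hW, hd, hinv, heven, hsp, ht⟩ := hA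
  obtain ⟨v, hvW, hdeg⟩ := exists_small μ W hd ht
  by_cases hfix : θ v = v
  · -- fixed vertex
    let W1 := W.erase v
    have hvW1 : v ∉ W1 := Finset.notMem_erase v W
    have hins : insert v W1 = W := Finset.insert_erase hvW
    have hW1 : ∀ x ∈ W1, θ x ∈ W1 := by
      intro x hx
      rw [Finset.mem_erase] at hx ⊢
      refine ⟨?_, hW x hx.2⟩
      intro h
      exact hx.1 (by rw [← hθ x, h, hfix])
    have hsub1 : W1 ⊆ W := Finset.erase_subset _ _
    have hcard1 : W1.card + 1 = W.card := Finset.card_erase_add_one hvW
    have hsplit : ∑ y ∈ W, μ s(v, y) = ∑ y ∈ W1, μ s(v, y) := by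
      rw [← hins, Finset.sum_insert hvW1, hd, zero_add]
    have hii : ii μ W = ii μ W1 + ∑ y ∈ W1, μ s(v, y) := by
      rw [← ii_insert μ W1 v hvW1 (hd v), hins]
    rw [hsplit] at hdeg
    have hpar : Even (∑ y ∈ W1, μ s(v, y)) := by
      rw [← ZMod.natCast_eq_zero_iff_even]
      push_cast
      have hmθ : ∀ y, μ s(v, θ y) = μ s(v, y) := by
        intro y
        have := hinv s(v, y)
        rw [Sym2.map_mk] at this
        change μ s(θ v, θ y) = _ at this
        rw [hfix] at this
        exact this
      refine Finset.sum_involution (fun y _ => θ y) ?_ ?_ ?_ ?_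
      · intro y _
        rw [hmθ]
        exact CharTwo.add_self_eq_zero _
      · intro y _ hne heq
        apply hne
        rw [ZMod.natCast_eq_zero_iff_even]
        apply heven
        change s(θ v, θ y) = _
        rw [hfix, heq]
      · intro y hy
        exact hW1 y hy
      · intro y _
        exact hθ y
    by_cases hemp : W1 = ∅
    · -- single vertex
      have hWv : W = {v} := by rw [← hins, hemp]; rfl
      refine ⟨fun _ => 0, fun _ => 0, ⟨fun _ => rfl, fun _ => by simp, ?_, ?_⟩, ?_⟩
      · intro x hx y hy _
        rw [hWv, Finset.mem_singleton] at hx hy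
        left; rw [hx, hy]
      · intro x hx y hy _
        rw [hWv, Finset.mem_singleton] at hx hy
        left; rw [hx, hy]
      · intro g _ x hx y hy
        rw [hWv, Finset.mem_singleton] at hx hy
        rw [hx, hy]
    have hne1 : W1.Nonempty := Finset.nonempty_iff_ne_empty.2 hemp
    have hsp1 := hsp W1 hsub1 hne1
    obtain ⟨r, hr⟩ := hpar
    have hdeg2 : ∑ y ∈ W1, μ s(v, y) = 2 := by omega
    obtain ⟨a, b, hG, hC⟩ := ih (n - 1) (by omega) W1 μ (by omega)
      ⟨hW1, hd, hinv, heven, fun X hX => hsp X (hX.trans hsub1), by omega⟩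
    obtain ⟨a', b', hG', hagree, -⟩ := extend_fixed θ hθ W1 hW1 a b hG v hvW1 hfix
    rw [hins] at hG'
    refine ⟨a', b', hG', ?_⟩
    obtain ⟨y, hy, hmy⟩ := dec_pos (fun y => μ s(v, y)) W1 (by omega)
    intro g hg
    have hg' := CT_restrict μ W W1 hsub1 a b a' b' hagree g hg
    have hconst := hC g hg'
    have hgv : ∃ y0 ∈ W1, g v = g y0 := by
      rcases link θ hθ μ hd hinv heven W a' b' hG' v y hvW (hsub1 hy) hmy with h | h
      · exact ⟨y, hy, hg v hvW y (hsub1 hy) h⟩
      · rw [hfix] at h
        exact ⟨θ y, hW1 y hy, hg v hvW (θ y) (hsub1 (hW1 y hy)) h⟩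
    obtain ⟨y0, hy0, hgy0⟩ := hgv
    have key : ∀ x ∈ W, g x = g y0 := by
      intro x hx
      rw [← hins, Finset.mem_insert] at hx
      rcases hx with rfl | hx
      · exact hgy0
      · exact hconst x hx y0 hy0
    intro x hx y hy
    rw [key x hx, key y hy]
  · -- moved vertex
    let W' := (W.erase v).erase (θ v)
    have hθvW : θ v ∈ W := hW v hvW
    have hvW' : v ∉ W' := fun h => by
      rw [Finset.mem_erase, Finset.mem_erase] at h
      exact h.2.1 rfl
    have hθvW' : θ v ∉ W' := Finset.notMem_erase _ _
    have hvi : v ∉ insert (θ v) W' := by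
      rw [Finset.mem_insert, not_or]
      exact ⟨fun h => hfix h.symm, hvW'⟩
    have hins : insert v (insert (θ v) W') = W := by
      rw [Finset.insert_erase (Finset.mem_erase.2 ⟨hfix, hθvW⟩), Finset.insert_erase hvW]
    have hsub' : W' ⊆ W := (Finset.erase_subset _ _).trans (Finset.erase_subset _ _)
    have hWθ' : ∀ x ∈ W', θ x ∈ W' := by
      intro x hx
      rw [Finset.mem_erase, Finset.mem_erase] at hx ⊢
      refine ⟨?_, ?_, hW x hx.2.2⟩
      · intro h
        exact hx.2.1 (by rw [← hθ x, h, hθ])
      · intro h
        exact hx.1 (by rw [← hθ x, h])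
    have hcard' : W'.card + 2 = W.card := by
      have h1 : W'.card + 1 = (W.erase v).card :=
        Finset.card_erase_add_one (Finset.mem_erase.2 ⟨hfix, hθvW⟩)
      have h2 : (W.erase v).card + 1 = W.card := Finset.card_erase_add_one hvW
      omega
    have hDθ : ∑ y ∈ W', μ s(θ v, y) = ∑ y ∈ W', μ s(v, y) := by
      refine Finset.sum_bij' (fun y _ => θ y) (fun y _ => θ y) (fun y hy => hWθ' y hy)
        (fun y hy => hWθ' y hy) (fun y _ => hθ y) (fun y _ => hθ y) ?_
      intro y _
      have := hinv s(θ v, y)
      change μ s(θ (θ v), θ y) = _ at this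
      rw [hθ] at this
      exact this.symm
    set D := ∑ y ∈ W', μ s(v, y) with hDdef
    have hsplit : ∑ y ∈ W, μ s(v, y) = μ s(v, θ v) + D := by
      rw [← hins, Finset.sum_insert hvi, hd, zero_add, Finset.sum_insert hθvW']
    have hii : ii μ W = ii μ W' + 2 * D + μ s(v, θ v) := by
      rw [← hins, ii_insert μ _ v hvi (hd v), ii_insert μ W' (θ v) hθvW' (hd _), hDθ,
        Finset.sum_insert hθvW']
      ring
    rw [hsplit] at hdeg
    have hmev : Even (μ s(v, θ v)) := by
      apply heven
      change s(θ v, θ (θ v)) = _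
      rw [hθ, Sym2.eq_swap]
    obtain ⟨m, hm⟩ := hmev
    have hsub : W' ⊆ insert v (insert (θ v) W') := fun z hz =>
      Finset.mem_insert_of_mem (Finset.mem_insert_of_mem hz)
    have hvm : v ∈ insert v (insert (θ v) W') := Finset.mem_insert_self _ _
    have hθvm : θ v ∈ insert v (insert (θ v) W') :=
      Finset.mem_insert_of_mem (Finset.mem_insert_self _ _)
    have hsp' : ∀ X ⊆ W', X.Nonempty → ii μ X + 2 ≤ 2 * X.card :=
      fun X hX => hsp X (hX.trans hsub')
    by_cases hm0 : μ s(v, θ v) = 0
    · -- no edge between v and θ v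
      have hne' : W'.Nonempty := by
        rw [Finset.nonempty_iff_ne_empty]
        intro hemp
        have hD0 : D = 0 := by rw [hDdef, hemp]; rfl
        have hi0 : ii μ W' = 0 := by rw [hemp]; rfl
        have hc0 : W'.card = 0 := by rw [hemp]; rfl
        omega
      have h1 := hsp' W' (subset_refl _) hne'
      have hD23 : D = 2 ∨ D = 3 := by omega
      rcases hD23 with hD | hD
      · -- degree two
        obtain ⟨a, b, hG, hC⟩ := ih (n - 2) (by omega) W' μ (by omega)
          ⟨hWθ', hd, hinv, heven, hsp', by omega⟩
        rcases dec2 (fun y => μ s(v, y)) W' hD with ⟨u, hu, hmu⟩ | ⟨u, hu, w, hw, huw, hmu, hmw⟩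
        · obtain ⟨a', b', hG', hagree, -⟩ := extend θ hθ W' hWθ' a b hG v hvW' hfix Set.univ
            isOpen_univ Set.univ_nonempty
          rw [← hins]
          refine ⟨a', b', hG', conn_of θ W' v _ ?_⟩
          intro g hg
          have hg' := CT_restrict μ _ W' hsub a b a' b' hagree g hg
          refine ⟨hC g hg', ⟨u, hu, hg v hvm u (hsub hu) (Or.inl hmu)⟩,
            ⟨θ u, hWθ' u hu, hg _ hθvm _ (hsub (hWθ' u hu)) (Or.inl ?_)⟩⟩
          exact hmu.trans (hinv s(v, u)).ge
        · rw [← hins]
          exact case2 θ hθ μ hinv W' hWθ' v hvW' hfix u w hu hw huw hmu hmw a b hG hC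
      · -- degree three
        have hle2 : ∀ y ∈ W', μ s(v, y) ≤ 2 := by
          intro y hy
          have hvy : v ∉ ({y} : Finset V) := by
            rw [Finset.mem_singleton]
            rintro rfl
            exact hvW' hy
          have h2 := hsp (insert v {y}) (by
            intro x hx
            rw [Finset.mem_insert, Finset.mem_singleton] at hx
            rcases hx with rfl | rfl
            · exact hvW
            · exact hsub' hy) ⟨v, Finset.mem_insert_self _ _⟩
          rw [ii_insert μ _ v hvy (hd v), Finset.card_insert_of_notMem hvy,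
            Finset.sum_singleton, Finset.card_singleton] at h2
          omega
        have hspv : ∀ X ⊆ W', ii μ (insert v X) + 2 ≤ 2 * (insert v X).card := by
          intro X hX
          apply hsp
          · intro x hx
            rw [Finset.mem_insert] at hx
            rcases hx with rfl | hx
            · exact hvW
            · exact hsub' (hX hx)
          · exact ⟨v, Finset.mem_insert_self _ _⟩
        -- applying the induction hypothesis after adding an unblocked pair
        have hIH : ∀ u ∈ W', ∀ w ∈ W', u ≠ w →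
            (∀ X ⊆ W', u ∈ X → w ∈ X → ii μ X + 2 ≠ 2 * X.card) →
            ∃ a b : V → ℝ, Gen θ W' a b ∧ Conn W' (TT (add2 θ μ u w) a b) := by
          intro u hu w hw huw hbl
          refine ih (n - 2) (by omega) W' (add2 θ μ u w) (by omega)
            ⟨hWθ', ?_, add2_inv θ hθ μ hinv u w, add2_even θ hθ μ heven u w,
              add2_sparse θ hθ μ hinv heven W' hWθ' hsp' u w hbl, ?_⟩
          · intro x
            unfold add2
            rw [hd, if_neg, if_neg]
            · intro h
              rw [Sym2.eq_iff] at h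
              rcases h with ⟨h2, h3⟩ | ⟨h2, h3⟩
              · exact huw (by rw [← hθ u, ← h2, h3, hθ])
              · exact huw (by rw [← hθ u, ← h3, h2, hθ])
            · intro h
              rw [Sym2.eq_iff] at h
              rcases h with ⟨h2, h3⟩ | ⟨h2, h3⟩
              · exact huw (h2.symm.trans h3)
              · exact huw (h3.symm.trans h2)
          · rw [ii_add2, if_pos ⟨hu, hw⟩, if_pos ⟨hWθ' u hu, hWθ' w hw⟩]
            omega
        rcases dec3 (fun y => μ s(v, y)) W' hD hle2 with ⟨u, hu, w, hw, huw, hmu, hmw⟩ |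
          ⟨u, hu, w, hw, z, hz, huw, huz, hwz, hmu, hmw, hmz⟩
        · obtain ⟨a, b, hG, hC⟩ := hIH u hu w hw huw (by
            intro X hX huX hwX
            have hvX : v ∉ X := fun h => hvW' (hX h)
            have h2 := hspv X hX
            rw [ii_insert μ _ v hvX (hd v), Finset.card_insert_of_notMem hvX] at h2
            have h3 : 3 ≤ ∑ y ∈ X, μ s(v, y) := by
              have hsub2 : ({u, w} : Finset V) ⊆ X := by
                intro x hx
                rw [Finset.mem_insert, Finset.mem_singleton] at hx
                rcases hx with rfl | rfl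
                · exact huX
                · exact hwX
              have h4 := Finset.sum_le_sum_of_subset (f := fun y => μ s(v, y)) hsub2
              have h5 : ∑ y ∈ ({u, w} : Finset V), μ s(v, y) = 3 := by
                rw [Finset.sum_insert (by simp [huw]), Finset.sum_singleton]
                change μ s(v, u) = 2 at hmu
                change μ s(v, w) = 1 at hmw
                rw [hmu, hmw]
              rw [h5] at h4
              exact h4
            omega)
          rw [← hins]
          exact case21 θ hθ μ hinv W' hWθ' v hvW' hfix u w hu hw huw hmu hmw a b hG hC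
        · rw [← hins]
          rcases unblocked μ hd W' v hvW' hsp' hspv u w z huw huz hwz hmu hmw hmz with hbl | hbl
          · obtain ⟨a, b, hG, hC⟩ := hIH u hu w hw huw hbl
            exact case3 θ hθ μ hinv W' hWθ' v hvW' hfix u w z hu hw hz huw huz hwz hmu hmw hmz
              a b hG hC
          · obtain ⟨a, b, hG, hC⟩ := hIH u hu z hz huz hbl
            exact case3 θ hθ μ hinv W' hWθ' v hvW' hfix u z w hu hz hw huz huw hwz.symm hmu hmz
              hmw a b hG hC
    · -- double edge between v and θ v
      have hm2 : 2 ≤ μ s(v, θ v) := by omega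
      by_cases hemp : W' = ∅
      · have hG0 : Gen θ W' (fun _ => (0 : ℝ)) (fun _ => (0 : ℝ)) :=
          ⟨fun _ => rfl, fun _ => by simp, by rw [hemp]; simp, by rw [hemp]; simp⟩
        obtain ⟨a', b', hG', -, -⟩ := extend θ hθ W' hWθ' _ _ hG0 v hvW' hfix Set.univ
            isOpen_univ Set.univ_nonempty
        rw [← hins]
        refine ⟨a', b', hG', ?_⟩
        intro g hg
        have h1 : g v = g (θ v) := hg v hvm _ hθvm (Or.inl hm2)
        have key : ∀ x ∈ insert v (insert (θ v) W'), g x = g v := by
          intro x hx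
          rw [Finset.mem_insert, Finset.mem_insert] at hx
          rcases hx with rfl | rfl | hx
          · rfl
          · exact h1.symm
          · rw [hemp] at hx
            exact absurd hx (Finset.notMem_empty _)
        intro x hx y hy
        rw [key x hx, key y hy]
      have hne' : W'.Nonempty := Finset.nonempty_iff_ne_empty.2 hemp
      have h1 := hsp' W' (subset_refl _) hne'
      obtain ⟨a, b, hG, hC⟩ := ih (n - 2) (by omega) W' μ (by omega)
          ⟨hWθ', hd, hinv, heven, hsp', by omega⟩
      obtain ⟨a', b', hG', hagree, -⟩ := extend θ hθ W' hWθ' a b hG v hvW' hfix Set.univ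
            isOpen_univ Set.univ_nonempty
      obtain ⟨y, hy, hmy⟩ := dec_pos (fun y => μ s(v, y)) W' (by omega)
      rw [← hins]
      refine ⟨a', b', hG', conn_of θ W' v _ ?_⟩
      intro g hg
      have hg' := CT_restrict μ _ W' hsub a b a' b' hagree g hg
      have hvθv : g v = g (θ v) := hg v hvm _ hθvm (Or.inl hm2)
      refine ⟨hC g hg', ?_⟩
      rcases link θ hθ μ hd hinv heven _ a' b' hG' v y hvm (hsub hy) hmy with h | h
      · have h2 := hg v hvm y (hsub hy) h
        exact ⟨⟨y, hy, h2⟩, ⟨y, hy, hvθv.symm.trans h2⟩⟩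
      · have h2 := hg _ hθvm _ (hsub (hWθ' y hy)) h
        exact ⟨⟨θ y, hWθ' y hy, hvθv.trans h2⟩, ⟨θ y, hWθ' y hy, h2⟩⟩

end Pool.Agent.H789R4
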